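import Pool.Agent.Q72.NW.Gen

/-!
# Entire curves in varieties of general type meet hypersurface sections often

`X` is an irreducible complex projective variety of general type in projective `N`-space, given by
its function field `K` and its generic point `a`: the homogeneous coordinates `a i` are elements of
`K`, and their ratios generate `K`. `GeneralType ℂ K d` says that `d` is the dimension and that for
some `M > 0` there are `M`-canonical forms, regular at all prime divisors of all models, whose
ratios contain `d` algebraically independent functions. `f 0, …, f n` are any forms of the same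
degree `e > 0` which do not vanish on `X` and have no common zero on `X` (so `n` is at least the
dimension; for `n = d` there are always such forms), and `D` is the set `f 0 * ... * f n = 0` in `X`.

Theorem: there are a proper closed subset `B = 0` of `X` and numbers `ε > 0` and `m` such that for
every nonconstant entire curve `w` in `X` which is not contained in `B = 0`

* `ε * T(r) ≤ N(r)` for all `r > 0` outside of a set of finite Lebesgue measure, where `T` is the
  characteristic function of `w` and `N` is the counting function of the points that `w` maps to `D`,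
  where each point is counted once, without multiplicity;
* `w` meets one of the `f i = 0` at some point with a multiplicity smaller than `m`.

So all entire curves in `X` which meet `D` rarely, or only with high multiplicities, are contained in
one proper closed subset, as the conjecture of Green, Griffiths and Lang predicts for all entire
curves.
-/

set_option autoImplicit false

namespace Pool.Agent.Results.MP_2a5ae2_ag.MeetsSectionsOften

open MvPolynomial FF MeasureTheory Pool.Agent.W603.LV Pool.Agent.W602.GT

/-- `w` gives (by homogeneous coordinates) a nonconstant entire curve in the projective variety with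
the generic point `a`. -/
structure EntireCurve {N : ℕ} {K : Type} [Field K] [Algebra ℂ K] (a : Fin (N + 1) → K)
    (w : ℂ → Fin (N + 1) → ℂ) : Prop where
  holomorphic : Differentiable ℂ w
  ne_zero : ∀ z, w z ≠ 0
  mem : ∀ (H : MvPolynomial (Fin (N + 1)) ℂ) (D : ℕ), H.IsHomogeneous D → aeval a H = 0 →
    ∀ z, eval (w z) H = 0
  nonconstant : ∃ z z', ∀ c : ℂ, w z ≠ c • w z'

/-- The characteristic function (Cartan): the mean of `log ‖w‖` on the circle of radius `r`, minus
`log ‖w 0‖`. -/
noncomputable def charFun {N : ℕ} (w : ℂ → Fin (N + 1) → ℂ) (r : ℝ) : ℝ :=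
  Real.circleAverage (fun z => Real.log ‖w z‖) 0 r - Real.log ‖w 0‖

/-- The contribution of the point `z` to the counting functions: `log (r / |z|)` if `|z| ≤ r`, and
`log r` if `z = 0`. -/
noncomputable def weight (r : ℝ) (z : ℂ) : ℝ :=
  if z = 0 then Real.log r else if ‖z‖ ≤ r then Real.log (r / ‖z‖) else 0

/-- The truncated counting function: the points that are mapped to one of the `f i = 0`, each counted
once. -/
noncomputable def countFun {N n : ℕ} (f : Fin (n + 1) → MvPolynomial (Fin (N + 1)) ℂ)
    (w : ℂ → Fin (N + 1) → ℂ) (r : ℝ) : ℝ :=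
  ∑ᶠ (z : ℂ) (_ : z ∈ {z | ∃ i, eval (w z) (f i) = 0}), weight r z

/-- See the explanation at the beginning of the file. -/
theorem result {N n d : ℕ} (K : Type) [Field K] [Algebra ℂ K] (a : Fin (N + 1) → K)
    (hK : IntermediateField.adjoin ℂ {g : K | ∃ i j, a j ≠ 0 ∧ g = a i / a j} = ⊤)
    (hgt : GeneralType ℂ K d)
    (f : Fin (n + 1) → MvPolynomial (Fin (N + 1)) ℂ) (e : ℕ) (he : 0 < e)
    (hf : ∀ i, (f i).IsHomogeneous e) (hf0 : ∀ i, aeval a (f i) ≠ 0)
    (hcz : ∀ x : Fin (N + 1) → ℂ, x ≠ 0 → (∀ (H : MvPolynomial (Fin (N + 1)) ℂ) (D : ℕ),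
      H.IsHomogeneous D → aeval a H = 0 → eval x H = 0) → ∃ i, eval x (f i) ≠ 0) :
    ∃ (B : MvPolynomial (Fin (N + 1)) ℂ) (E : ℕ) (ε : ℝ) (m : ℕ), B.IsHomogeneous E ∧
      aeval a B ≠ 0 ∧ 0 < ε ∧
      ∀ w : ℂ → Fin (N + 1) → ℂ, EntireCurve a w → (∃ z, eval (w z) B ≠ 0) →
        (∃ S : Set ℝ, volume S < ⊤ ∧ ∀ r, 0 < r → r ∉ S → ε * charFun w r ≤ countFun f w r) ∧
        ∃ i z, eval (w z) (f i) = 0 ∧ analyticOrderAt (fun z => eval (w z) (f i)) z < m := by
  obtain ⟨B, E, ε, m, hB, hBa, hε, hmain⟩ := Pool.Agent.Q72.NW.gen_main K a hK f e he hf hf0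
    (fun x hx hx0 => hcz x hx0 hx) (fun _ => False) (fun _ h => h.elim)
    (Pool.Agent.Q72.NW.log_of_general hgt _)
  exact ⟨B, E, ε, m, hB, hBa, hε, fun w hw hwB => hmain w hw.holomorphic hw.ne_zero
    (fun z H D hH hHa => hw.mem H D hH hHa z) hw.nonconstant hwB⟩

end Pool.Agent.Results.MP_2a5ae2_ag.MeetsSectionsOften
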