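import Pool.Agent.Q64.LC.Uma
import Pool.Agent.Q64.LC.Ptd

/-!
# Pseudo-Brody hyperbolicity and the entire curves of slow growth

Let `k` be a countable subfield of `ℂ`, for example the field of algebraic numbers. There is one
function `Ψ`, growing faster than all polynomials, with the following properties for all `U = X - D`,
where `X ⊂ ℙ ^ n` is a projective algebraic set over `k` and `D` is its intersection with a
hypersurface `Q = 0` over `k`. Slow curves are the nonconstant entire curves in `U` with entire
homogeneous coordinates `f` such that `Q (f)` is constant and `‖f z‖ ≤ C * Ψ ‖z‖` for large `z`.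

1. For every closed subset `Δ` of `U` (not only over `k`) the following are equivalent: all slow
curves lie in `Δ`; all nonconstant morphisms `𝔸 ^ 1 → U` map to `Δ`; for all points `x` of `U`
outside `Δ` there are only finitely many morphisms `𝔸 ^ 1 → U` which map the origin to `x`; the
degrees of the morphisms `𝔸 ^ 1 → U` which do not map to `Δ` are bounded.

2. For a point `x` with coordinates in `k`: there are only finitely many morphisms `𝔸 ^ 1 → U` which
map the origin to `x` if and only if there is no slow curve through `x`.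

3. Let `X` be irreducible of dimension `w`. If `U` has a nonzero logarithmic pluricanonical form (as
all `U` of log general type have), or if `X` is not covered by rational curves, then the points on
the slow curves form a set of Hausdorff dimension at most `2 w` in the cone, which has real dimension
`2 w + 2`. If moreover `w = 2`, then each slow curve lies in the closure of the image of one morphism
`𝔸 ^ 1 → U`.
-/

set_option autoImplicit false

namespace Pool.Agent.Results.MP_2a5ae2_ag.SlowPseudo

open MvPolynomial Pool.Agent.TH143.GT Pool.Agent.W602.GT Pool.Agent.W603.GR Pool.Agent.W603.PV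
open Pool.Agent.Q64.LC
open scoped ENNReal

/-- All slow curves in `X - D` lie in the closed subset given by `p'`. -/
def SlowIn {n : ℕ} (Ψ : ℝ → ℝ) (p : Ideal (MvPolynomial (Fin (n + 1)) ℂ))
    (Q : MvPolynomial (Fin (n + 1)) ℂ) (p' : Ideal (MvPolynomial (Fin (n + 1)) ℂ)) : Prop :=
  ∀ f, Entire p Q f → GrowthLe Ψ f → ∀ z : ℂ, InZ p' (f z)

theorem result (k : Subfield ℂ) [Countable k] :
    ∃ Ψ : ℝ → ℝ, SuperPoly Ψ ∧ ∀ (n : ℕ) (p : Ideal (MvPolynomial (Fin (n + 1)) ℂ))
      (Q : MvPolynomial (Fin (n + 1)) ℂ) (q : ℕ), IsHomog p → Q.IsHomogeneous q →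
      OverK k p → CoeffK k Q →
      (∀ p' : Ideal (MvPolynomial (Fin (n + 1)) ℂ), List.TFAE [
        SlowIn Ψ p Q p', MorIn p Q p', PointedFinite p Q p', DegreeBounded p Q p']) ∧
      (∀ x : Fin (n + 1) → ℂ, x ≠ 0 → (∀ j, x j ∈ k) →
        ((PtMors p Q (fun _ : Fin (0 + 1) => 0) (fun _ => x)).Finite ↔
          ∀ f, Entire p Q f → GrowthLe Ψ f → ∀ z c : ℂ, x ≠ c • f z)) ∧
      (∀ (w : ℕ) (K : Type) [Field K] [Algebra ℂ K] (y : Fin (n + 1) → K), FunField p Q K w y →
        NonNeg Q q w y → dimH (slowPts p Q Ψ) ≤ ((2 * w : ℕ) : ℝ≥0∞)) ∧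
      (∀ (K : Type) [Field K] [Algebra ℂ K] (y : Fin (n + 1) → K), FunField p Q K 2 y →
        NonNeg Q q 2 y → ∀ f, Entire p Q f → GrowthLe Ψ f → InPoly p Q f) := by
  obtain ⟨Ψ, h1, h2⟩ := uni_main k
  refine ⟨Ψ, h1, fun n p Q q hp hQ hpk hQk => ?_⟩
  obtain ⟨h3, h4, h5, h6⟩ := h2 n p Q q hp hQ hpk hQk
  refine ⟨fun p' => ?_, fun x hx hxk => ?_, fun w K _ _ y hy h => ?_,
    fun K _ _ y hy h f hf hg => ?_⟩
  · tfae_have 1 → 2 := by
      intro h T hT hN z
      exact h _ (hT.poly hN).entire (growthLe_poly h1 T) z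
    tfae_have 2 → 1 := by
      intro h f hf hg z H hH hHf
      have hcl : IsClosed {x : Fin (n + 1) → ℂ | eval x H = 0} :=
        isClosed_eq (MvPolynomial.continuous_eval H) continuous_const
      refine (closure_minimal ?_ hcl) (h4 f hf hg z)
      rintro _ ⟨T, hT, u, rfl⟩
      obtain ⟨g, T', hT', hM, hN⟩ := hT.reduce hQ
      obtain ⟨d, hd⟩ := hHf
      have e : (fun j => (T j).eval u) = fun j => g.eval u * (T' j).eval u := by
        funext j
        rw [hT' j, Polynomial.eval_mul]
      change eval (fun j => (T j).eval u) H = 0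
      rw [e, eval_mul_form hd, h T' hM hN u H hH ⟨d, hd⟩, mul_zero]
    tfae_have 2 → 3 := pointed_of_morIn
    tfae_have 3 → 2 := morIn_of_pointed
    tfae_have 2 → 4 := bounded_of_morIn
    tfae_have 4 → 2 := morIn_of_bounded
    tfae_finish
  · rw [ptMors_finite_iff _ fun _ => hx]
    constructor
    · intro hno f hf hg z c hzc
      obtain ⟨T, hT, h7⟩ := (h6 1 f hf hg).1 (fun _ => x) (fun _ => hxk) fun _ => ⟨z, c, hzc⟩
      obtain ⟨u, b, hub⟩ := h7 0
      obtain ⟨g, T', hT', hM, hN⟩ := hT.reduce hQ
      refine hno ⟨fun j => (T' j).comp (Polynomial.X + Polynomial.C u), hM.comp _, ?_,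
        fun _ => ⟨b * g.eval u, ?_⟩⟩
      · obtain ⟨s, t, j, l, hst⟩ := hN
        refine ⟨s - u, t - u, j, l, ?_⟩
        simpa [Polynomial.eval_comp] using hst
      · have hub' : x = b • fun j => (T j).eval u := hub
        rw [hub']
        funext j
        simp only [Pi.smul_apply, smul_eq_mul, hT' j, Polynomial.eval_comp, Polynomial.eval_add,
          Polynomial.eval_X, Polynomial.eval_C, zero_add, Polynomial.eval_mul]
        ring
    · rintro h ⟨T, hM, hN, h7⟩
      obtain ⟨c, hc⟩ := h7 0
      exact h _ (hM.poly hN).entire (growthLe_poly h1 T) 0 c hc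
  · rw [h3]
    exact dimH_ratPts hp hy (h.exists_form hy hQ)
  · exact h5 (h.finCl hy hQ) f hf hg

end Pool.Agent.Results.MP_2a5ae2_ag.SlowPseudo
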