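import Mathlib
import Pool.Agent.Q33.SP.Uni

/-!
MP_2a5ae2_ag: entire curves which are sums of `r` powers in a projective variety are degenerate, for
all `r`, if and only if the variety is not uniruled.
-/

set_option autoImplicit false

namespace Pool.Agent.Results.MP_2a5ae2_ag.UniruledPowerSums

open MvPolynomial Filter Topology FF Pool.Agent.W602.GT Pool.Agent.TH143.GT Pool.Agent.Q33.SP
open Pool.Agent.W603.GR (OffQ)

/-- Let `X` be the irreducible projective variety `F = 0` given by forms of degree at most `D`, with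
ideal `p`, function field `K` and generic point `y`.

(1) The following are equivalent: `X` is not uniruled; for each `r` one proper closed subset of `X`
contains all nonconstant entire curves that are sums of `r` terms given by `M`-th powers, and all
such maps from the punctured disc with an essential singularity, for all
`M ≥ (number of monomials of degree D in r variables) ^ 2`; for each `r` there is `M > 0` such that
one proper closed subset contains all such entire curves.

(2) This is the case if the Kodaira dimension of `X` is not negative.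

(3) In general, let `s_1, …, s_k` be rational functions that are constant along all covering
families of rational curves. Then outside of one proper closed subset, for such `M`, the functions
`s_i ∘ f` are constant for all such entire curves, and extend to meromorphic functions at the origin
for all such maps from the punctured disc. -/
theorem result {n D : ℕ} {ι : Type} (F : ι → MvPolynomial (Fin (n + 1)) ℂ)
    (hF : ∀ i, ∃ d, d ≤ D ∧ (F i).IsHomogeneous d) (p : Ideal (MvPolynomial (Fin (n + 1)) ℂ))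
    [p.IsPrime] (hp : ∀ H, H ∈ p ↔ ∀ x, OnX F 1 x → eval x H = 0)
    (K : Type) [Field K] [Algebra ℂ K] (w : ℕ) (y : Fin (n + 1) → K) (hy : FunField p 1 K w y) :
    [¬ Uniruled y,
      ∀ r, 1 ≤ r → ∃ G : MvPolynomial (Fin (n + 1)) ℂ, IsForm G ∧ G ∉ p ∧
        ∀ M, ((r + D - 1).choose D) ^ 2 ≤ M →
          (∀ f, PunctSp r M F 1 f → ∀ w : ℂ, w ≠ 0 → ‖w‖ < 1 → eval (f w) G = 0) ∧
          ∀ f, EntSp r M F 1 f → ∀ z, eval (f z) G = 0,
      ∀ r, 1 ≤ r → ∃ M : ℕ, 0 < M ∧ ∃ G : MvPolynomial (Fin (n + 1)) ℂ, IsForm G ∧ G ∉ p ∧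
        ∀ f, EntSp r M F 1 f → ∀ z, eval (f z) G = 0].TFAE ∧
    (KodGe ℂ K w (OffQ 1 0 y) 0 → ¬ Uniruled y) ∧
    ∀ r, 1 ≤ r → ∀ (k : ℕ) (s : Fin k → K), (∀ i, FlatFn y 1 (s i)) →
      ∃ G : MvPolynomial (Fin (n + 1)) ℂ, IsForm G ∧ G ∉ p ∧
        ∀ M, ((r + D - 1).choose D) ^ 2 ≤ M →
          (∀ f, PunctSp r M F 1 f → (∃ w : ℂ, w ≠ 0 ∧ ‖w‖ < 1 ∧ eval (f w) G ≠ 0) →
            ∀ i, MeroOn y (s i) f) ∧
          (∀ f, EntSp r M F 1 f → (∃ z : ℂ, eval (f z) G ≠ 0) → ∀ i, ConstOn y (s i) f) := by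
  have hM0 : ∀ r, 1 ≤ r → ∀ M, ((r + D - 1).choose D) ^ 2 ≤ M → 0 < M := fun r hr M hM =>
    lt_of_lt_of_le (pow_pos (Nat.choose_pos (by omega)) 2) hM
  have hcut : ∀ H ∈ p, ∀ x, OnX F 1 x → eval x H = 0 := fun H hH => (hp H).1 hH
  have hFp : ∀ i, F i ∈ p := fun i => (hp _).2 fun x hx => hx.1 i
  refine ⟨?_, fun h => not_uniruled_of_kod hy h, fun r hr k s hs =>
    core_main hr F hF 1 (isHomogeneous_one _ _) (Nat.zero_le _) hcut hy hs⟩
  tfae_have 1 → 2 := by
    intro hnu r hr
    obtain ⟨G, h1, h2, h3⟩ := excep_nr (r := r) (D := D) hcut hy hnu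
    refine ⟨G, h1, h2, fun M hM => ?_⟩
    have h4 := tfae (r := r) F hF 1 (isHomogeneous_one _ _) (Nat.zero_le _) hM (hM0 r hr M hM) G
    exact ⟨(h4.out 4 0).1 h3, (h4.out 4 1).1 h3⟩
  tfae_have 2 → 3 := by
    intro h r hr
    obtain ⟨G, h1, h2, h3⟩ := h r hr
    exact ⟨((r + D - 1).choose D) ^ 2, hM0 r hr _ le_rfl, G, h1, h2, (h3 _ le_rfl).2⟩
  tfae_have 3 → 1 := by
    intro h hu
    obtain ⟨r, hr, hcov⟩ := cover_of_uniruled hu
    obtain ⟨M, hM, G, h1, h2, h3⟩ := h r hr
    obtain ⟨U, a1, a2, i, l, a3⟩ := hcov G h1 fun h0 => h2 (hy.mem G h1 h0)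
    obtain ⟨f, hf, z, hz⟩ := ent_of_kc (F := F) hM _ (fun i => a1 (F i) (by
      obtain ⟨d, -, hd⟩ := hF i
      exact ⟨d, hd⟩) (hy.sub.mem _ (hFp i))) a3 a2
    exact hz (h3 f hf z)
  tfae_finish

end Pool.Agent.Results.MP_2a5ae2_ag.UniruledPowerSums
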